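import Pool.Agent.H5.QH.Targets

/-!
# Block H, row ODS: split diagonal forms in an odd number of variables
-/

set_option autoImplicit false

open NumberField IsDedekindDomain Matrix Pool.Agent.H32.QC Pool.Agent.H34.N6 Pool.Agent.H5.QH

namespace Pool.Agent.H35.QH

theorem atPl_mono {K : Type} [Field K] [NumberField K] {w : Pl K}
    {Φ Ψ : ∀ (F : Type) [Field F], (K →+* F) → Prop}
    (h : ∀ (F : Type) [Field F] (ι : K →+* F), Φ F ι → Ψ F ι) (hw : AtPl w Φ) : AtPl w Ψ := by
  cases w with
  | inl v => exact h _ _ hw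
  | inr φ => exact h _ _ hw

theorem diag_map {K F : Type} [Field K] [Field F] (ι : K →+* F) {n : ℕ} (a : Fin n → K) :
    (diagonal a).map ι = diagonal fun i => ι (a i) := by
  rw [Matrix.diagonal_map (map_zero ι)]

theorem map_step {K F : Type} [Field K] [Field F] (hI : T_INV) (hC : T_CAN) (ι : K →+* F)
    {n r : ℕ} (a : Fin (n + 2) → K) (b : Fin n → K) (Q : Matrix (Fin (n + 2)) (Fin (n + 2)) K)
    (hQ : IsUnit Q.det) (hQab : Qᵀ * diagonal a * Q = diagonal (vecCons 1 (vecCons (-1) b)))
    (h : TI (diagonal fun i => ι (a i)) (r + 1)) : TI (diagonal fun i => ι (b i)) r := by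
  apply hC
  have h1 : IsUnit (Q.map ι).det := by
    have h2 : ι Q.det = (Q.map ι).det := ι.map_det Q
    rw [← h2]
    exact hQ.map ι
  have h3 : (Q.map ι)ᵀ * (diagonal fun i => ι (a i)) * Q.map ι =
      diagonal (vecCons 1 (vecCons (-1) fun i => ι (b i))) := by
    rw [← diag_map, ← Matrix.transpose_map, ← Matrix.map_mul, ← Matrix.map_mul, hQab, diag_map]
    congr 1
    funext i
    refine Fin.cases ?_ (fun i => Fin.cases ?_ (fun i => ?_) i) i
    · exact map_one ι
    · show ι (-1) = -1
      rw [map_neg, map_one]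
    · rfl
  rw [← h3]
  exact (hI F (n + 2) (r + 1) _ _ h1).2 h

theorem pf_ODS (hH : T_HMN) (hT : T_TI1) (hI : T_INV) (hS : T_HSP) (hC : T_CAN) (hA : T_ADD)
    (h3 : T_TR3) (hN : T_NSL) : T_ODS := by
  intro K _ _ m
  have key : ∀ (m n : ℕ), n = 2 * m + 1 → ∀ (a : Fin n → K) (w₀ : FPl K), (∀ i, a i ≠ 0) →
      (∀ w : Pl K, w ≠ Sum.inl w₀ → AtPl w fun _ _ ι => TI (diagonal fun i => ι (a i)) m) →
      TI (diagonal a) m := by
    intro m
    induction m with
    | zero =>
      intro n _ a w₀ _ _
      exact ⟨fun i => i.elim0, linearIndependent_empty_type, fun i => i.elim0⟩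
    | succ m ih =>
      intro n hn a w₀ ha hloc
      obtain rfl : n = 2 * m + 1 + 2 := by omega
      have hiso : Iso a := by
        have hloc' : ∀ w : Pl K, w ≠ Sum.inl w₀ → AtPl w fun _ _ ι => Iso fun i => ι (a i) := by
          intro w hw
          refine atPl_mono (fun F _ ι h => ?_) (hloc w hw)
          exact (hT F _ _).2 m h
        cases m with
        | zero => exact h3 K a w₀ ha hloc'
        | succ m =>
          refine hH K _ a (by omega) ha ⟨fun v => ?_, fun φ => ?_⟩
          · by_cases hv : v = w₀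
            · exact hN K v _ _ (by omega) fun i => by
                rw [Ne, map_eq_zero]
                exact ha i
            · exact hloc' (Sum.inl v) fun h => hv (Sum.inl_injective h)
          · exact hloc' (Sum.inr φ) (by simp)
      obtain ⟨b, Q, hb, hQ, hQab⟩ := hS K two_ne_zero (2 * m + 1) a ha hiso
      have hbm : TI (diagonal b) m := by
        apply ih (2 * m + 1) rfl b w₀ hb
        intro w hw
        exact atPl_mono (fun F _ ι h => map_step hI hC ι a b Q hQ hQab h) (hloc w hw)
      have h5 := hA K (2 * m + 1) m b hbm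
      rw [← hQab] at h5
      exact (hI K (2 * m + 1 + 2) (m + 1) _ Q hQ).1 h5
  intro a w₀ ha hloc
  exact key m (2 * m + 1) rfl a w₀ ha hloc

end Pool.Agent.H35.QH
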